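import Pool.Agent.X308.Y.Main
import Mathlib.Tactic.TFAE

/-!
# The LMO invariant separates integral homology spheres iff it detects chirality and separates
amphichiral homology spheres
-/

set_option autoImplicit false

namespace Pool.Agent.Results.MP_27a3bb_gt.ChiralReduction

open Pool.Agent.X308.Y Filter Topology

variable {P A : Type} [CommRing A] [Algebra ℚ A]

/-- For some complexity `c`, subadditive under the connected sum, and some sublinear function `f`,
at most `f x` homology spheres of complexity at most `x` have the same invariant. -/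
def SublinearFibres (L : LMO P A) : Prop :=
  ∃ c : (P →₀ ℕ) → ℝ, (∀ M N, c (M + N) ≤ c M + c N) ∧
    ∃ f : ℝ → ℝ, Monotone f ∧ Tendsto (fun x => f x / x) atTop (𝓝 0) ∧
      ∀ (x : ℝ) (F : Finset (P →₀ ℕ)), (∀ M ∈ F, c M ≤ x) →
        (∀ M ∈ F, ∀ N ∈ F, L.Z M = L.Z N) → (F.card : ℝ) ≤ f x

/-- `M` and `N` have no common prime summand. -/
def Coprime (M N : P →₀ ℕ) : Prop := ∀ p, M p = 0 ∨ N p = 0

/-- **Theorem.** Equivalent are: the invariant separates integral homology spheres; its values are
algebraically independent on the prime ones; its values are linearly independent; the fibres grow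
sublinearly in some complexity; it distinguishes `M` from `-M` whenever these are different, and
distinguishes amphichiral homology spheres; the last condition when there are no common summands. -/
theorem result [IsDomain A] (L : LMO P A) :
    List.TFAE [
      Function.Injective L.Z,
      AlgebraicIndependent ℚ fun p => L.Z (Finsupp.single p 1),
      LinearIndependent ℚ L.Z,
      SublinearFibres L,
      (∀ M, L.Z M = L.Z (L.opp M) → M = L.opp M) ∧
        ∀ M N, L.opp M = M → L.opp N = N → L.Z M = L.Z N → M = N,
      (∀ M, Coprime M (L.opp M) → L.Z M = L.Z (L.opp M) → M = 0) ∧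
        ∀ M N, L.opp M = M → L.opp N = N → Coprime M N → L.Z M = L.Z N → M = 0 ∧ N = 0] := by
  tfae_have 1 → 3 := L.linearIndependent
  tfae_have 3 → 2 := L.algebraicIndependent
  tfae_have 2 → 1 := L.injective_of_algebraicIndependent
  tfae_have 4 → 1 := by
    rintro ⟨c, hc, f, hf, hlim, h⟩
    exact L.injective_of_sublinear hc hf hlim h
  tfae_have 1 → 4 := by
    intro h
    refine ⟨fun _ => 0, fun _ _ => by simp, fun _ => 1, monotone_const, ?_, ?_⟩
    · exact tendsto_const_nhds.div_atTop tendsto_id
    · intro x F _ hF
      have : F.card ≤ 1 := Finset.card_le_one.2 fun M hM N hN => h (hF M hM N hN)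
      change (F.card : ℝ) ≤ 1
      exact_mod_cast this
  tfae_have 1 → 5 := fun h => ⟨fun _ hM => h hM, fun _ _ _ _ hMN => h hMN⟩
  tfae_have 5 → 6 := by
    rintro ⟨hA, hB⟩
    refine ⟨fun M hM hZ => ?_, fun M N hM hN hMN hZ => ?_⟩
    · have h1 := hA M hZ
      ext p
      rcases hM p with h2 | h2
      · exact h2
      · rw [h1]
        exact h2
    · have h1 := hB M N hM hN hZ
      subst h1
      have : M = 0 := by
        ext p
        rcases hMN p with h2 | h2 <;> exact h2
      exact ⟨this, this⟩
  tfae_have 6 → 1 := by
    rintro ⟨hA, hB⟩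
    refine L.injective_of_chiral (fun M hM => hA M fun p => ?_) hB
    rw [L.opp_apply]
    exact hM p
  tfae_finish

end Pool.Agent.Results.MP_27a3bb_gt.ChiralReduction
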